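import Pool.Agent.Helper17.FP.Stmts

/-! Module PER: incomplete character sums. -/

set_option autoImplicit false

namespace Pool.Agent.Helper17.FP

open Finset Pool.Agent.Helper17.SO Pool.Agent.Helper17.SV

/-- a function which is periodic and multiplicative and takes the value `-1` has sum zero over a
period -/
theorem per_zero (q : ℕ) (hq : 0 < q) (f : ℕ → ℤ) (hper : ∀ n, f n = f (n % q))
    (hmul : ∀ m n, f (m * n) = f m * f n) (a : ℕ) (ha : a.Coprime q) (hfa : f a = -1) :
    ∑ n ∈ range q, f n = 0 := by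
  have hne : NeZero q := ⟨hq.ne'⟩
  have h1 : ∑ n ∈ range q, f n = ∑ x : ZMod q, f x.val := by
    refine sum_nbij' (fun n => (n : ZMod q)) (fun x => x.val) ?_ ?_ ?_ ?_ ?_
    · intro n _
      exact mem_univ _
    · intro x _
      exact mem_range.mpr (ZMod.val_lt x)
    · intro n hn
      exact ZMod.val_cast_of_lt (mem_range.mp hn)
    · intro x _
      exact ZMod.natCast_zmod_val x
    · intro n hn
      show f n = f (n : ZMod q).val
      rw [ZMod.val_cast_of_lt (mem_range.mp hn)]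
  have h2 : ∑ x : ZMod q, f x.val = ∑ x : ZMod q, f (((a : ZMod q) * x).val) := by
    have := Equiv.sum_comp (Units.mulLeft (ZMod.unitOfCoprime a ha)) (fun x : ZMod q => f x.val)
    rw [← this]
    refine sum_congr rfl fun x _ => ?_
    rw [Units.mulLeft_apply, ZMod.coe_unitOfCoprime]
  have h3 : ∀ x : ZMod q, f (((a : ZMod q) * x).val) = - f x.val := by
    intro x
    rw [ZMod.val_mul, ZMod.val_natCast, Nat.mod_mul_mod, ← hper, hmul, hfa]
    ring
  rw [h1]
  have h4 : ∑ x : ZMod q, f x.val = - ∑ x : ZMod q, f x.val := by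
    conv_lhs => rw [h2]
    rw [← sum_neg_distrib]
    exact sum_congr rfl fun x _ => h3 x
  linarith

theorem per_shift (q : ℕ) (f : ℕ → ℤ) (hper : ∀ n, f n = f (n % q))
    (h0 : ∑ n ∈ range q, f n = 0) (t r : ℕ) :
    ∑ n ∈ range (q * t + r), f n = ∑ n ∈ range r, f n := by
  induction t with
  | zero => simp
  | succ t ih =>
    rw [show q * (t + 1) + r = q + (q * t + r) by ring, sum_range_add, h0, zero_add]
    rw [← ih]
    refine sum_congr rfl fun n _ => ?_
    rw [hper (q + n), Nat.add_mod_left, ← hper]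

theorem per_diff (f : ℕ → ℤ) (hf : ∀ n, |f n| ≤ 1) (r s : ℕ) :
    |∑ n ∈ range (r + s), f n - ∑ n ∈ range r, f n| ≤ s := by
  rw [sum_range_add, add_sub_cancel_left]
  calc |∑ n ∈ range s, f (r + n)| ≤ ∑ n ∈ range s, |f (r + n)| := abs_sum_le_sum_abs _ _
    _ ≤ ∑ n ∈ range s, (1 : ℤ) := sum_le_sum fun n _ => hf _
    _ = s := by simp

/-- sums over intervals -/
theorem per_bound (q : ℕ) (hq : 0 < q) (f : ℕ → ℤ) (hper : ∀ n, f n = f (n % q))
    (hf : ∀ n, |f n| ≤ 1) (h0 : ∑ n ∈ range q, f n = 0) (A B : ℕ) :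
    |∑ n ∈ Ioc A B, f n| ≤ q := by
  rcases Nat.lt_or_ge B A with hlt | hle
  · rw [Ioc_eq_empty (by omega), sum_empty, abs_zero]
    positivity
  · have h1 : ∑ n ∈ Ioc A B, f n =
        ∑ n ∈ range (B + 1), f n - ∑ n ∈ range (A + 1), f n := by
      have : Ioc A B = Ico (A + 1) (B + 1) := by
        ext n
        simp only [mem_Ioc, mem_Ico]
        omega
      rw [this, sum_Ico_eq_sub _ (by omega)]
    have h2 : ∀ N : ℕ, ∑ n ∈ range N, f n = ∑ n ∈ range (N % q), f n := by
      intro N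
      conv_lhs => rw [← Nat.div_add_mod N q]
      exact per_shift q f hper h0 _ _
    rw [h1, h2 (B + 1), h2 (A + 1)]
    have hB := Nat.mod_lt (B + 1) hq
    have hA := Nat.mod_lt (A + 1) hq
    generalize (B + 1) % q = b at hB ⊢
    generalize (A + 1) % q = a at hA ⊢
    rcases Nat.le_total a b with h | h
    · obtain ⟨s, rfl⟩ := Nat.exists_eq_add_of_le h
      refine (per_diff f hf a s).trans ?_
      exact_mod_cast (by omega : s ≤ q)
    · obtain ⟨s, rfl⟩ := Nat.exists_eq_add_of_le h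
      rw [abs_sub_comm]
      refine (per_diff f hf b s).trans ?_
      exact_mod_cast (by omega : s ≤ q)

theorem per_jac_le (a : ℤ) (b : ℕ) : |jacobiSym a b| ≤ 1 := by
  rcases jacobiSym.trichotomy a b with h | h | h <;> rw [h] <;> norm_num

theorem per_jac_one (b : ℕ) : jacobiSym 1 b = 1 := jacobiSym.one_left b

/-- an integer in a given class which is a nonresidue -/
theorem per_nonres (p M : ℕ) (hp : p.Prime) (hp2 : p ≠ 2) (hM : M.Coprime p) :
    ∃ n : ℕ, n ≡ 1 [MOD M] ∧ jacobiSym (n : ℤ) p = -1 ∧ n.Coprime p := by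
  have : Fact p.Prime := ⟨hp⟩
  obtain ⟨x, hx⟩ := FiniteField.exists_nonsquare (F := ZMod p) (by
    rw [ZMod.ringChar_zmod_n]
    exact hp2)
  obtain ⟨n, hn1, hn2⟩ := Nat.chineseRemainder hM 1 x.val
  have h1 : ((n : ℕ) : ZMod p) = x := by
    have := (ZMod.natCast_eq_natCast_iff n x.val p).mpr hn2
    rw [this, ZMod.natCast_zmod_val]
  refine ⟨n, hn1, ?_, ?_⟩
  · rw [← jacobiSym.legendreSym.to_jacobiSym, legendreSym.eq_neg_one_iff]
    rw [Int.cast_natCast, h1]
    exact hx
  · rw [Nat.coprime_comm, hp.coprime_iff_not_dvd]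
    intro hd
    have h2 : ((n : ℕ) : ZMod p) = 0 := (ZMod.natCast_eq_zero_iff n p).mpr hd
    rw [h1] at h2
    exact hx (h2 ▸ IsSquare.zero)

theorem per_jper (q : ℕ) (n : ℕ) : jacobiSym (n : ℤ) q = jacobiSym ((n % q : ℕ) : ℤ) q := by
  rw [jacobiSym.mod_left, Int.natCast_mod]

theorem per_jmod {a b q : ℕ} (h : a ≡ b [MOD q]) : jacobiSym (a : ℤ) q = jacobiSym (b : ℤ) q := by
  rw [per_jper q a, per_jper q b, h]

theorem per_one (h : Pool.Agent.Helper17.SO.ST_NSQ) (p p' : ℕ) (hp : p.Prime) (hp' : p'.Prime)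
    (h2 : p ≠ 2) (hne : p ≠ p') (A B : ℕ) :
    |∑ n ∈ Ioc A B, jacobiSym (n : ℤ) (p * p')| ≤ p * p' := by
  have hpos : 0 < p * p' := Nat.mul_pos hp.pos hp'.pos
  have hco : p'.Coprime p := (Nat.coprime_primes hp' hp).mpr hne.symm
  obtain ⟨a, ha1, ha2, ha3⟩ := per_nonres p p' hp h2 hco
  have hnp : NeZero p := ⟨hp.ne_zero⟩
  have hnp' : NeZero p' := ⟨hp'.ne_zero⟩
  have hz := per_zero (p * p') hpos (fun n => jacobiSym (n : ℤ) (p * p'))
    (fun n => per_jper _ n) (fun m n => by
      show jacobiSym ((m * n : ℕ) : ℤ) _ = _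
      push_cast
      exact jacobiSym.mul_left _ _ _) a (by
      refine Nat.Coprime.mul_right ha3 ?_
      have := ha1.gcd_eq
      rw [Nat.gcd_one_left] at this
      exact this) (by
      show jacobiSym (a : ℤ) (p * p') = -1
      rw [jacobiSym.mul_right, ha2, per_jmod ha1]
      push_cast
      rw [jacobiSym.one_left]
      norm_num)
  have := per_bound (p * p') hpos (fun n => jacobiSym (n : ℤ) (p * p'))
    (fun n => per_jper _ n) (fun n => per_jac_le _ _) hz A B
  push_cast at this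
  exact this

theorem per_chi_per (lam : ℕ) (hlam : 1 ≤ lam) (n : ℕ) :
    chi lam n = chi lam (n % (4 * (4 * lam - 1))) := by
  have hab : (1 - 4 * (lam : ℤ)).natAbs = 4 * lam - 1 := by omega
  have hpar : n % (4 * (4 * lam - 1)) % 2 = n % 2 := by
    rw [Nat.mod_mod_of_dvd]
    exact ⟨2 * (4 * lam - 1), by ring⟩
  unfold chi
  rw [hpar]
  split_ifs with h
  · rw [jacobiSym.mod_right _ (Nat.odd_iff.mpr h), hab]
  · rfl

theorem per_chi_mul (lam m n : ℕ) : chi lam (m * n) = chi lam m * chi lam n := by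
  unfold chi
  rcases Nat.mod_two_eq_zero_or_one m with hm | hm
  · rw [if_neg (by rw [Nat.mul_mod, hm]; simp), if_neg (by omega), zero_mul]
  · rcases Nat.mod_two_eq_zero_or_one n with hn | hn
    · rw [if_neg (by rw [Nat.mul_mod, hn]; simp), if_neg (show ¬ n % 2 = 1 by omega), mul_zero]
    · rw [if_pos (by rw [Nat.mul_mod, hm, hn]), if_pos hm, if_pos hn]
      exact jacobiSym.mul_right' _ (by omega) (by omega)

theorem per_chi_le (lam n : ℕ) : |chi lam n| ≤ 1 := by
  unfold chi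
  split_ifs
  · exact per_jac_le _ _
  · norm_num

theorem per_chi_mod {lam a b : ℕ} (hlam : 1 ≤ lam) (h : a ≡ b [MOD (4 * (4 * lam - 1))]) :
    chi lam a = chi lam b := by
  rw [per_chi_per lam hlam a, per_chi_per lam hlam b, h]

theorem per_chi_one (lam : ℕ) : chi lam 1 = 1 := by
  unfold chi
  rw [if_pos (by norm_num)]
  exact jacobiSym.one_right _

theorem per_two (h : Pool.Agent.Helper17.SO.ST_NSQ) (lam : ℕ) (hlam : 1 ≤ lam) (A B : ℕ) :
    |∑ n ∈ Ioc A B, chi lam n| ≤ 16 * lam := by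
  have hpos : 0 < 4 * (4 * lam - 1) := by omega
  obtain ⟨b, hb1, hb2⟩ := h (1 - 4 * (lam : ℤ)) (by
    intro hs
    have := hs.nonneg
    have h2 : (1 : ℤ) ≤ lam := by exact_mod_cast hlam
    linarith)
  have hb0 : NeZero b := ⟨by rintro rfl; exact absurd hb1 (by decide)⟩
  have hab : (1 - 4 * (lam : ℤ)).natAbs = 4 * lam - 1 := by omega
  have hcop : b.Coprime (4 * (4 * lam - 1)) := by
    refine Nat.Coprime.mul_right ?_ ?_
    · exact (Nat.Coprime.pow_right 2 (Nat.coprime_two_right.mpr hb1) : b.Coprime (2 ^ 2))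
    · by_contra hc
      have h3 : jacobiSym (1 - 4 * (lam : ℤ)) b = 0 := by
        rw [jacobiSym.eq_zero_iff_not_coprime]
        intro h4
        apply hc
        rw [Nat.coprime_comm]
        rw [← hab]
        have h5 : Int.gcd (1 - 4 * (lam : ℤ)) (b : ℤ) = Nat.gcd (1 - 4 * (lam : ℤ)).natAbs b := rfl
        rw [h5] at h4
        exact h4
      rw [h3] at hb2
      norm_num at hb2
  have hz := per_zero (4 * (4 * lam - 1)) hpos (chi lam) (fun n => per_chi_per lam hlam n)
    (per_chi_mul lam) b hcop (by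
      unfold chi
      rw [if_pos (Nat.odd_iff.mp hb1)]
      exact hb2)
  refine (per_bound (4 * (4 * lam - 1)) hpos (chi lam) (fun n => per_chi_per lam hlam n)
    (per_chi_le lam) hz A B).trans ?_
  exact_mod_cast (by omega : 4 * (4 * lam - 1) ≤ 16 * lam)

theorem per_three (lam : ℕ) (hlam : 1 ≤ lam) (p p' : ℕ)
    (hp : p.Prime) (hp' : p'.Prime) (hne : p ≠ p') (h1 : 4 * lam < p) (h1' : 4 * lam < p')
    (A B : ℕ) :
    |∑ n ∈ Ioc A B, chi lam n * jacobiSym (n : ℤ) (p * p')| ≤ 16 * lam * (p * p') := by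
  have hpos : 0 < 4 * (4 * lam - 1) * (p * p') :=
    Nat.mul_pos (by omega) (Nat.mul_pos hp.pos hp'.pos)
  have hcopr : ∀ r : ℕ, r.Prime → 4 * lam < r → (4 * (4 * lam - 1)).Coprime r := by
    intro r hr hlt
    rw [Nat.coprime_comm, hr.coprime_iff_not_dvd]
    intro hd
    rcases hr.dvd_mul.mp hd with h | h
    · have := Nat.le_of_dvd (by norm_num) h
      omega
    · have := Nat.le_of_dvd (by omega) h
      omega
  have hco : p'.Coprime p := (Nat.coprime_primes hp' hp).mpr hne.symm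
  have hM : (4 * (4 * lam - 1) * p').Coprime p := Nat.Coprime.mul_left (hcopr p hp h1) hco
  obtain ⟨a, ha1, ha2, ha3⟩ := per_nonres p (4 * (4 * lam - 1) * p') hp (by omega) hM
  have hnp : NeZero p := ⟨hp.ne_zero⟩
  have hnp' : NeZero p' := ⟨hp'.ne_zero⟩
  have ha4 : a ≡ 1 [MOD p'] := ha1.of_mul_left _
  have ha5 : a ≡ 1 [MOD (4 * (4 * lam - 1))] := ha1.of_mul_right _
  have hper : ∀ n : ℕ, chi lam n * jacobiSym (n : ℤ) (p * p') =
      chi lam (n % (4 * (4 * lam - 1) * (p * p'))) *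
        jacobiSym ((n % (4 * (4 * lam - 1) * (p * p')) : ℕ) : ℤ) (p * p') := by
    intro n
    have e1 : n % (4 * (4 * lam - 1) * (p * p')) ≡ n [MOD (4 * (4 * lam - 1) * (p * p'))] :=
      Nat.mod_modEq _ _
    rw [per_chi_mod hlam (e1.of_mul_right _), per_jmod (e1.of_mul_left _)]
  have hmul : ∀ m n : ℕ, chi lam (m * n) * jacobiSym ((m * n : ℕ) : ℤ) (p * p') =
      (chi lam m * jacobiSym (m : ℤ) (p * p')) * (chi lam n * jacobiSym (n : ℤ) (p * p')) := by
    intro m n
    rw [per_chi_mul]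
    push_cast
    rw [jacobiSym.mul_left]
    ring
  have hle : ∀ n : ℕ, |chi lam n * jacobiSym (n : ℤ) (p * p')| ≤ 1 := by
    intro n
    rw [abs_mul]
    exact mul_le_one₀ (per_chi_le _ _) (abs_nonneg _) (per_jac_le _ _)
  have hz := per_zero _ hpos (fun n => chi lam n * jacobiSym (n : ℤ) (p * p')) hper hmul a (by
      refine Nat.Coprime.mul_right ?_ (Nat.Coprime.mul_right ha3 ?_)
      · have := ha5.gcd_eq
        rw [Nat.gcd_one_left] at this
        exact this
      · have := ha4.gcd_eq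
        rw [Nat.gcd_one_left] at this
        exact this) (by
      show chi lam a * jacobiSym (a : ℤ) (p * p') = -1
      rw [per_chi_mod hlam ha5, per_chi_one, jacobiSym.mul_right, ha2, per_jmod ha4]
      push_cast
      rw [jacobiSym.one_left]
      norm_num)
  refine (per_bound _ hpos (fun n => chi lam n * jacobiSym (n : ℤ) (p * p')) hper hle hz A B).trans
    ?_
  have h5 : 4 * (4 * lam - 1) * (p * p') ≤ 16 * lam * (p * p') :=
    Nat.mul_le_mul_right _ (by omega)
  exact_mod_cast h5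

theorem st_PER (h : Pool.Agent.Helper17.SO.ST_NSQ) : ST_PER := by
  refine ⟨fun p p' hp hp' h2 _ hne A B => per_one h p p' hp hp' h2 hne A B, fun lam hlam => ?_⟩
  exact ⟨fun A B => per_two h lam hlam A B,
    fun p p' hp hp' hne h1 h1' A B => per_three lam hlam p p' hp hp' hne h1 h1' A B⟩

end Pool.Agent.Helper17.FP
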